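import Mathlib

/-!
# The multi-pile one-or-all token game: the large-pile rule fails for twelve piles

Positions are finite multisets of positive integers (pile sizes).  A move removes one token
from a single pile, or one token from every pile.  Q1 of the problem predicts that a position
with `k ≥ 3` piles, all of size greater than `⌈k / 3⌉`, is a P-position exactly when its number
of odd piles lies in `S k`.  We show that the prediction fails for `k = 12`: the position with
seven piles of size `5` and five piles of size `6` is an N-position, although its number of odd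
piles, `7`, lies in `S 12`.
-/

namespace Pool.Agent.Results.MP_b8aaf5_co.Counterexample

/-- Piles that have become empty are discarded. -/
def discardEmpty (p : Multiset ℕ) : Multiset ℕ := p.filter (fun a => 0 < a)

/-- A position is a finite multiset of positive integers (the pile sizes). -/
def Position : Type := {p : Multiset ℕ // ∀ a ∈ p, 0 < a}

/-- A unimove removes one token from a single pile. -/
def UniMove (p q : Position) : Prop :=
  ∃ a ∈ p.1, q.1 = discardEmpty ((a - 1) ::ₘ p.1.erase a)

/-- An allmove removes one token from every pile (there has to be at least one pile). -/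
def AllMove (p q : Position) : Prop :=
  p.1 ≠ 0 ∧ q.1 = discardEmpty (p.1.map (fun a => a - 1))

/-- A move is a unimove or an allmove. -/
def Move (p q : Position) : Prop := UniMove p q ∨ AllMove p q

theorem sum_discardEmpty (p : Multiset ℕ) : (discardEmpty p).sum = p.sum := by
  unfold discardEmpty
  induction p using Multiset.induction_on with
  | empty => simp
  | cons a s ih =>
    by_cases h : 0 < a
    · rw [Multiset.filter_cons_of_pos _ h, Multiset.sum_cons, Multiset.sum_cons, ih]
    · have h0 : a = 0 := by omega
      rw [Multiset.filter_cons_of_neg _ h, Multiset.sum_cons, ih, h0, Nat.zero_add]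

theorem Move.sum_lt {p q : Position} (h : Move p q) : q.1.sum < p.1.sum := by
  rcases h with ⟨a, ha, hq⟩ | ⟨hp, hq⟩
  · have hpos := p.2 a ha
    rw [hq, sum_discardEmpty, Multiset.sum_cons]
    have : a + (p.1.erase a).sum = p.1.sum := by
      rw [← Multiset.sum_cons, Multiset.cons_erase ha]
    omega
  · rw [hq, sum_discardEmpty]
    obtain ⟨a, ha⟩ := Multiset.exists_mem_of_ne_zero hp
    have hpos := p.2 a ha
    obtain ⟨t, ht⟩ := Multiset.exists_cons_of_mem ha
    rw [ht, Multiset.map_cons, Multiset.sum_cons, Multiset.sum_cons]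
    have : (t.map (fun a => a - 1)).sum ≤ t.sum := by
      calc (t.map (fun a => a - 1)).sum ≤ (t.map (fun a => a)).sum :=
            Multiset.sum_map_le_sum_map _ _ (fun i _ => Nat.sub_le i 1)
        _ = t.sum := by simp
    omega

/-- `IsPPosition p`: the player who is about to move at `p` loses under optimal play
(the player who makes the last move wins).  Equivalently: every move from `p` leads to a
position that is not a P-position. -/
def IsPPosition (p : Position) : Prop :=
  ∀ q : Position, (_h : Move p q) → ¬ IsPPosition q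
termination_by p.1.sum
decreasing_by exact Move.sum_lt _h

/-- An N-position is a position that is not a P-position. -/
def IsNPosition (p : Position) : Prop := ¬ IsPPosition p

/-- The set `S k` of the problem. -/
def S (k : ℕ) : Set ℕ :=
  if k % 2 = 1 then {j | j ≤ k ∧ Even j}
  else if k % 4 = 0 then
    {j | Even j ∧ j ≤ k / 2 - 2} ∪ {j | Odd j ∧ k / 2 + 1 ≤ j ∧ j ≤ k - 1}
  else
    {j | Even j ∧ j ≤ k / 2 - 1} ∪ {j | Odd j ∧ k / 2 + 2 ≤ j ∧ j ≤ k - 1}

/-- The number of odd piles of a position. -/
def oddPiles (p : Position) : ℕ := Multiset.card (p.1.filter (fun a => Odd a))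

/-! ### Computation with count lists -/

/-- `toM s [c₀, c₁, …]` has `c₀` piles of size `s`, `c₁` piles of size `s + 1`, and so on. -/
def toM : ℕ → List ℕ → Multiset ℕ
  | _, [] => 0
  | s, c :: l => Multiset.replicate c s + toM (s + 1) l

/-- All ways to decrease one pile, the piles of the first size being left alone. -/
def down : List ℕ → List (List ℕ)
  | [] => []
  | [_] => []
  | a :: b :: l =>
    (if b = 0 then [] else [(a + 1) :: (b - 1) :: l]) ++ (down (b :: l)).map (fun t => a :: t)

/-- All options of the position `toM 1 l`. -/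
def options : List ℕ → List (List ℕ)
  | [] => []
  | a :: l =>
    (if a = 0 then [] else [(a - 1) :: l]) ++ down (a :: l) ++
        (if (a :: l).all (fun c => c == 0) then [] else [l ++ [0]])

theorem mem_toM_ge (l : List ℕ) : ∀ (s a : ℕ), a ∈ toM s l → s ≤ a := by
  induction l with
  | nil => intro s a h; simp [toM] at h
  | cons c l ih =>
    intro s a h
    rw [toM, Multiset.mem_add] at h
    rcases h with h | h
    · exact (Multiset.eq_of_mem_replicate h).ge
    · exact (Nat.le_succ s).trans (ih (s + 1) a h)

theorem toM_append_zero (l : List ℕ) : ∀ s, toM s (l ++ [0]) = toM s l := by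
  induction l with
  | nil => intro s; simp [toM]
  | cons c l ih => intro s; simp [toM, ih]

theorem map_pred_toM (l : List ℕ) : ∀ s, (toM (s + 1) l).map (fun a => a - 1) = toM s l := by
  induction l with
  | nil => intro s; simp [toM]
  | cons c l ih => intro s; simp [toM, ih]

theorem discard_of_pos {p : Multiset ℕ} (h : ∀ a ∈ p, 0 < a) : discardEmpty p = p :=
  Multiset.filter_eq_self.2 h

/-- the forward direction for `down` -/
theorem down_complete (l : List ℕ) : ∀ (s c a : ℕ), a ∈ toM (s + 1) l →
    ∃ l' ∈ down (c :: l), (a - 1) ::ₘ (toM s (c :: l)).erase a = toM s l' := by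
  induction l with
  | nil => intro s c a h; simp [toM] at h
  | cons b l ih =>
    intro s c a h
    rw [toM, Multiset.mem_add] at h
    by_cases hb : a = s + 1 ∧ 0 < b
    · obtain ⟨rfl, hb⟩ := hb
      obtain ⟨b', rfl⟩ : ∃ b', b = b' + 1 := ⟨b - 1, by omega⟩
      refine ⟨(c + 1) :: b' :: l, by simp [down], ?_⟩
      have h1 : toM s (c :: (b' + 1) :: l)
          = (s + 1) ::ₘ (Multiset.replicate c s + (Multiset.replicate b' (s + 1)
              + toM (s + 1 + 1) l)) := by
        simp [toM, Multiset.replicate_succ, Multiset.add_cons, Multiset.cons_add]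
      rw [h1, Multiset.erase_cons_head]
      simp [toM, Multiset.replicate_succ, Multiset.cons_add]
    · have h2 : a ∈ toM (s + 1 + 1) l := by
        rcases h with h | h
        · have := Multiset.mem_replicate.1 h
          exact absurd ⟨this.2, Nat.pos_of_ne_zero this.1⟩ hb
        · exact h
      obtain ⟨l', hl', he⟩ := ih (s + 1) b a h2
      refine ⟨c :: l', ?_, ?_⟩
      · rw [down]
        exact List.mem_append_right _ (List.mem_map_of_mem hl')
      · rw [toM, Multiset.erase_add_right_pos, ← Multiset.add_cons, he]
        · simp [toM]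
        · rw [toM, Multiset.mem_add]; exact Or.inr h2

/-- the backward direction for `down` -/
theorem down_sound (l : List ℕ) : ∀ (s c : ℕ) (l' : List ℕ), l' ∈ down (c :: l) →
    ∃ a ∈ toM (s + 1) l, (a - 1) ::ₘ (toM s (c :: l)).erase a = toM s l' := by
  induction l with
  | nil => intro s c l' h; simp [down] at h
  | cons b l ih =>
    intro s c l' h
    rw [down, List.mem_append] at h
    rcases h with h | h
    · cases b with
      | zero => simp at h
      | succ b' =>
        rw [if_neg (Nat.succ_ne_zero b'), List.mem_singleton, Nat.add_sub_cancel] at h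
        subst h
        refine ⟨s + 1, by simp [toM], ?_⟩
        have h1 : toM s (c :: (b' + 1) :: l)
            = (s + 1) ::ₘ (Multiset.replicate c s + (Multiset.replicate b' (s + 1)
                + toM (s + 1 + 1) l)) := by
          simp [toM, Multiset.replicate_succ, Multiset.add_cons, Multiset.cons_add]
        rw [h1, Multiset.erase_cons_head]
        simp [toM, Multiset.replicate_succ, Multiset.cons_add]
    · obtain ⟨t, ht, rfl⟩ := List.mem_map.1 h
      obtain ⟨a, ha, he⟩ := ih (s + 1) b t ht
      have ha' : a ∈ toM (s + 1) (b :: l) := by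
        rw [toM, Multiset.mem_add]; exact Or.inr ha
      refine ⟨a, ha', ?_⟩
      rw [toM, Multiset.erase_add_right_pos, ← Multiset.add_cons, he]
      · simp [toM]
      · exact ha'

/-- The position with count list `l`. -/
def pos (l : List ℕ) : Position := ⟨toM 1 l, fun a ha => mem_toM_ge l 1 a ha⟩

theorem options_complete (l : List ℕ) (q : Position) (h : Move (pos l) q) :
    ∃ l' ∈ options l, q = pos l' := by
  rcases h with ⟨a, ha, hq⟩ | ⟨hp, hq⟩
  · cases l with
    | nil => simp [pos, toM] at ha
    | cons c l =>
      by_cases h1 : a = 1 ∧ 0 < c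
      · obtain ⟨rfl, hc⟩ := h1
        obtain ⟨c', rfl⟩ : ∃ c', c = c' + 1 := ⟨c - 1, by omega⟩
        refine ⟨c' :: l, by simp [options], Subtype.ext ?_⟩
        rw [hq]
        have h1 : (pos ((c' + 1) :: l)).1 = 1 ::ₘ toM 1 (c' :: l) := by
          simp [pos, toM, Multiset.replicate_succ, Multiset.cons_add]
        rw [h1, Multiset.erase_cons_head]
        unfold discardEmpty
        rw [Multiset.filter_cons_of_neg _ (by simp)]
        exact discard_of_pos (pos (c' :: l)).2
      · have h2 : a ∈ toM (1 + 1) l := by
          have ha' : a ∈ toM 1 (c :: l) := ha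
          rw [toM, Multiset.mem_add] at ha'
          rcases ha' with h | h
          · have := Multiset.mem_replicate.1 h
            exact absurd ⟨this.2, Nat.pos_of_ne_zero this.1⟩ h1
          · exact h
        obtain ⟨l', hl', he⟩ := down_complete l 1 c a h2
        refine ⟨l', ?_, Subtype.ext ?_⟩
        · rw [options]
          exact List.mem_append_left _ (List.mem_append_right _ hl')
        · rw [hq]
          have : (pos (c :: l)).1 = toM 1 (c :: l) := rfl
          rw [this, he]
          exact discard_of_pos (pos l').2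
  · cases l with
    | nil => exact absurd rfl hp
    | cons c l =>
      have hne : ¬ ((c :: l).all (fun c => c == 0) = true) := by
        intro hall
        apply hp
        have : ∀ (l : List ℕ) (s : ℕ), l.all (fun c => c == 0) = true → toM s l = 0 := by
          intro l
          induction l with
          | nil => intro s _; rfl
          | cons c l ih =>
            intro s h
            simp only [List.all_cons, Bool.and_eq_true, beq_iff_eq] at h
            rw [toM, h.1, ih (s + 1) h.2]; simp
        exact this _ 1 hall
      refine ⟨l ++ [0], ?_, Subtype.ext ?_⟩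
      · rw [options, if_neg hne]
        exact List.mem_append_right _ (by simp)
      · rw [hq]
        show discardEmpty ((toM 1 (c :: l)).map (fun a => a - 1)) = toM 1 (l ++ [0])
        rw [toM_append_zero, toM, Multiset.map_add, map_pred_toM]
        unfold discardEmpty
        rw [Multiset.filter_add, Multiset.map_replicate]
        have h0 : (Multiset.replicate c (1 - 1)).filter (fun a => 0 < a) = 0 := by
          rw [Multiset.filter_eq_nil]
          intro a ha
          rw [Multiset.eq_of_mem_replicate ha]; simp
        rw [h0, zero_add]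
        exact discard_of_pos (fun a ha => mem_toM_ge l 1 a ha)

theorem options_sound (l l' : List ℕ) (h : l' ∈ options l) : Move (pos l) (pos l') := by
  cases l with
  | nil => simp [options] at h
  | cons c l =>
    rw [options, List.mem_append, List.mem_append] at h
    rcases h with (h | h) | h
    · cases c with
      | zero => simp at h
      | succ c' =>
        rw [if_neg (Nat.succ_ne_zero c'), List.mem_singleton, Nat.add_sub_cancel] at h
        subst h
        refine Or.inl ⟨1, by simp [pos, toM], ?_⟩
        have h1 : (pos ((c' + 1) :: l)).1 = 1 ::ₘ toM 1 (c' :: l) := by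
          simp [pos, toM, Multiset.replicate_succ, Multiset.cons_add]
        rw [h1, Multiset.erase_cons_head]
        unfold discardEmpty
        rw [Multiset.filter_cons_of_neg _ (by simp)]
        exact (discard_of_pos (pos (c' :: l)).2).symm
    · obtain ⟨a, ha, he⟩ := down_sound l 1 c l' h
      refine Or.inl ⟨a, ?_, ?_⟩
      · show a ∈ toM 1 (c :: l)
        rw [toM, Multiset.mem_add]; exact Or.inr ha
      · show (pos l').1 = discardEmpty ((a - 1) ::ₘ (toM 1 (c :: l)).erase a)
        rw [he]
        exact (discard_of_pos (pos l').2).symm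
    · by_cases hall : (c :: l).all (fun c => c == 0) = true
      · rw [if_pos hall] at h; simp at h
      · rw [if_neg hall] at h
        simp only [List.mem_singleton] at h
        subst h
        refine Or.inr ⟨?_, ?_⟩
        · intro h0
          apply hall
          have : ∀ (l : List ℕ) (s : ℕ), toM s l = 0 → l.all (fun c => c == 0) = true := by
            intro l
            induction l with
            | nil => intro s _; rfl
            | cons c l ih =>
              intro s h
              rw [toM] at h
              have h1 : Multiset.replicate c s = 0 := by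
                have := congrArg Multiset.card h
                rw [Multiset.card_add] at this
                apply Multiset.card_eq_zero.1
                simp only [Multiset.card_zero] at this
                omega
              have h2 : toM (s + 1) l = 0 := by rwa [h1, zero_add] at h
              have hc : c = 0 := by
                have := congrArg Multiset.card h1
                simpa using this
              simp only [List.all_cons, Bool.and_eq_true, beq_iff_eq]
              exact ⟨hc, ih (s + 1) h2⟩
          exact this _ 1 h0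
        · show toM 1 (l ++ [0]) = discardEmpty ((toM 1 (c :: l)).map (fun a => a - 1))
          rw [toM_append_zero, toM, Multiset.map_add, map_pred_toM]
          unfold discardEmpty
          rw [Multiset.filter_add, Multiset.map_replicate]
          have h0 : (Multiset.replicate c (1 - 1)).filter (fun a => 0 < a) = 0 := by
            rw [Multiset.filter_eq_nil]
            intro a ha
            rw [Multiset.eq_of_mem_replicate ha]; simp
          rw [h0, zero_add]
          exact (discard_of_pos (fun a ha => mem_toM_ge l 1 a ha)).symm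

/-- The certificate: count lists of P-positions with piles of sizes `1, …, 5`. -/
def cert : List (List ℕ) :=
  [[0, 0, 0, 0, 0], [0, 1, 0, 0, 0], [2, 1, 0, 0, 0], [0, 3, 0, 0, 0], [2, 2, 0, 0, 0],
   [4, 1, 0, 0, 0], [0, 4, 0, 0, 0], [2, 3, 0, 0, 0], [4, 2, 0, 0, 0], [6, 1, 0, 0, 0],
   [2, 4, 0, 0, 0], [4, 3, 0, 0, 0], [6, 2, 0, 0, 0], [8, 1, 0, 0, 0], [0, 1, 3, 0, 0],
   [2, 5, 0, 0, 0], [6, 3, 0, 0, 0], [8, 2, 0, 0, 0], [10, 1, 0, 0, 0], [2, 1, 3, 0, 0],
   [0, 1, 4, 0, 0], [4, 5, 0, 0, 0], [10, 2, 0, 0, 0], [0, 3, 3, 0, 0], [4, 1, 3, 0, 0],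
   [0, 0, 0, 4, 0], [2, 1, 4, 0, 0], [2, 3, 3, 0, 0], [6, 1, 3, 0, 0], [0, 3, 4, 0, 0],
   [2, 0, 0, 4, 0], [4, 1, 4, 0, 0], [0, 5, 3, 0, 0], [4, 3, 3, 0, 0], [8, 1, 3, 0, 0],
   [0, 0, 0, 5, 0], [0, 2, 0, 4, 0], [2, 3, 4, 0, 0], [4, 0, 0, 4, 0], [0, 3, 5, 0, 0],
   [2, 5, 3, 0, 0], [6, 3, 3, 0, 0], [0, 0, 2, 4, 0], [0, 5, 4, 0, 0], [2, 0, 0, 5, 0],
   [2, 2, 0, 4, 0], [6, 0, 0, 4, 0], [0, 7, 3, 0, 0], [4, 5, 3, 0, 0], [0, 2, 0, 5, 0],
   [0, 4, 0, 4, 0], [2, 0, 2, 4, 0], [4, 0, 0, 5, 0], [4, 2, 0, 4, 0], [8, 0, 0, 4, 0],
   [2, 7, 3, 0, 0], [0, 0, 2, 5, 0], [0, 2, 2, 4, 0], [2, 2, 0, 5, 0], [2, 4, 0, 4, 0],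
   [4, 0, 2, 4, 0], [6, 2, 0, 4, 0], [0, 9, 3, 0, 0], [0, 0, 4, 4, 0], [0, 4, 0, 5, 0],
   [0, 6, 0, 4, 0], [2, 0, 2, 5, 0], [2, 2, 2, 4, 0], [4, 4, 0, 4, 0], [6, 0, 2, 4, 0],
   [0, 2, 2, 5, 0], [0, 4, 2, 4, 0], [2, 0, 4, 4, 0], [2, 6, 0, 4, 0], [4, 2, 2, 4, 0],
   [0, 0, 4, 5, 0], [0, 2, 4, 4, 0], [0, 8, 0, 4, 0], [1, 1, 3, 5, 0], [2, 4, 2, 4, 0],
   [4, 0, 4, 4, 0], [0, 0, 6, 4, 0], [0, 1, 4, 5, 0], [0, 6, 2, 4, 0], [2, 0, 4, 5, 0],
   [2, 2, 4, 4, 0], [0, 4, 4, 4, 0], [2, 0, 6, 4, 0], [2, 1, 4, 5, 0], [0, 2, 6, 4, 0],
   [0, 3, 4, 5, 0], [0, 0, 8, 4, 0], [0, 0, 0, 5, 5], [2, 0, 0, 5, 5], [0, 2, 0, 5, 5],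
   [0, 0, 2, 5, 5], [0, 0, 0, 7, 5]]

/-- Every option of a listed position has an option that is listed. -/
def certOK : Bool :=
  cert.all fun l => (options l).all fun l' => (options l').any fun l'' => cert.elem l''

theorem certOK_eq : certOK = true := by decide +kernel

theorem cert_spec (l : List ℕ) (hl : l ∈ cert) (q : Position) (h : Move (pos l) q) :
    ∃ l'' ∈ cert, Move q (pos l'') := by
  obtain ⟨l', hl', rfl⟩ := options_complete l q h
  have h1 := certOK_eq
  unfold certOK at h1
  rw [List.all_eq_true] at h1
  have h2 := h1 l hl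
  rw [List.all_eq_true] at h2
  have h3 := h2 l' hl'
  rw [List.any_eq_true] at h3
  obtain ⟨l'', hl'', h4⟩ := h3
  exact ⟨l'', List.elem_iff.1 h4, options_sound l' l'' hl''⟩

theorem cert_isP (n : ℕ) : ∀ l ∈ cert, (pos l).1.sum = n → IsPPosition (pos l) := by
  induction n using Nat.strong_induction_on with
  | _ n ih =>
    intro l hl hn
    rw [IsPPosition]
    intro q hq hqP
    obtain ⟨l'', hl'', hm⟩ := cert_spec l hl q hq
    have hlt : (pos l'').1.sum < n := by
      rw [← hn]; exact hm.sum_lt.trans hq.sum_lt
    have hP := ih _ hlt l'' hl'' rfl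
    rw [IsPPosition] at hqP
    exact hqP _ hm hP

/-- The counterexample: seven piles of size `5` and five piles of size `6`. -/
def bad : Position :=
  ⟨Multiset.replicate 7 5 + Multiset.replicate 5 6, by
    intro a ha
    rw [Multiset.mem_add] at ha
    rcases ha with h | h
    · rw [Multiset.eq_of_mem_replicate h]; norm_num
    · rw [Multiset.eq_of_mem_replicate h]; norm_num⟩

theorem bad_isN : IsNPosition bad := by
  unfold IsNPosition
  intro h
  rw [IsPPosition] at h
  have hb : bad = pos [0, 0, 0, 0, 7, 5] := Subtype.ext (by simp [bad, pos, toM])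
  have hm : Move bad (pos [0, 0, 0, 7, 5, 0]) := by
    rw [hb]; exact options_sound _ _ (by decide)
  have he : pos [0, 0, 0, 7, 5, 0] = pos [0, 0, 0, 7, 5] := Subtype.ext (by simp [pos, toM])
  refine h _ hm ?_
  rw [he]
  exact cert_isP _ _ (by decide) rfl

/-- **Q1 is false.**  It is not true that for every `k ≥ 3` and every position with exactly `k`
piles, each with more than `⌈k / 3⌉` tokens, the position is a P-position if and only if its
number of odd piles lies in `S k`. -/
theorem result : ¬ ∀ k : ℕ, 3 ≤ k → ∀ p : Position, Multiset.card p.1 = k →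
    (∀ a ∈ p.1, ⌈(k : ℚ) / 3⌉ < (a : ℤ)) → (IsPPosition p ↔ oddPiles p ∈ S k) := by
  intro H
  have h := H 12 (by norm_num) bad (by simp [bad]) (by
    have hc : ⌈((12 : ℕ) : ℚ) / 3⌉ = 4 := by
      rw [show ((12 : ℕ) : ℚ) / 3 = ((4 : ℤ) : ℚ) by norm_num, Int.ceil_intCast]
    intro a ha
    rw [hc]
    have ha' : a ∈ Multiset.replicate 7 5 + Multiset.replicate 5 6 := ha
    rw [Multiset.mem_add] at ha'
    rcases ha' with h | h
    · rw [Multiset.eq_of_mem_replicate h]; norm_num
    · rw [Multiset.eq_of_mem_replicate h]; norm_num)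
  refine bad_isN (h.2 ?_)
  have h7 : oddPiles bad = 7 := by
    unfold oddPiles bad
    decide
  rw [h7, S, if_neg (by norm_num), if_pos (by norm_num)]
  refine Or.inr ⟨by decide, by norm_num, by norm_num⟩

end Pool.Agent.Results.MP_b8aaf5_co.Counterexample
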